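import Pool.Agent.Y667.RZ.Fin2
import Pool.Agent.W307.AT.Main
import Pool.Agent.W307.RG.MqTw

/-!
# The rank over `ℚ(√17)`

For a positive proportion of the curves with full rational 2-torsion the ranks of the curve and of its
twist by 17 add up to at most one.
-/

set_option autoImplicit false

namespace Pool.Agent.Y667.QF

open Finset Pool.Agent.W262.RK Pool.Agent.W307.RT Pool.Agent.W307.RS Pool.Agent.W307.SE
  Pool.Agent.W307.FK Pool.Agent.Y667.RP Pool.Agent.Y667.RZ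
open Pool.Agent.Y285.RP Pool.Agent.Y285.RZ Pool.Agent.Y890.RZ

/-- the target -/
def TQ (k : ℤ × ℤ) : Prop := Module.finrank ℤ (Sh k.1 k.2).toAffine.Point +
  Module.finrank ℤ (Sh (17 ^ 2 * k.1) (17 ^ 3 * k.2)).toAffine.Point ≤ 1

lemma cc17 (a b k : ℤ) : cc (17 * a) (17 * b) (17 * k) =
    (17 ^ 2 * (cc a b k).1, 17 ^ 3 * (cc a b k).2) := by
  unfold cc
  ext
  · simp only
    ring
  · simp only
    ring

lemma tq {a b k : ℤ} (h : a + b = 3 * k) (hb : 1 ≤ b) (hab : b < a)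
    (hf : (Sel a b).Finite) (hf' : (Sel (17 * a) (17 * b)).Finite)
    (hn : ((Sel a b).ncard = 4 ∧ (Sel (17 * a) (17 * b)).ncard = 8) ∨
      ((Sel a b).ncard = 8 ∧ (Sel (17 * a) (17 * b)).ncard = 4)) : TQ (cc a b k) := by
  obtain ⟨-, -, h1⟩ := tgw Pool.Agent.Y212.RZ.SELC2 h hb hab hf
  obtain ⟨-, -, h2⟩ := tgw Pool.Agent.Y212.RZ.SELC2 (a := 17 * a) (b := 17 * b) (k := 17 * k)
    (by linarith) (by linarith) (by linarith) hf'
  rw [cc17] at h2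
  dsimp only at h2
  have key : ∀ r n : ℕ, (1 ≤ r → 2 ^ (r + 2) ≤ n) → ∀ m : ℕ, n ≤ 2 ^ (m + 2) → r ≤ m := by
    intro r n h m hm
    rcases Nat.eq_zero_or_pos r with h0 | h0
    · omega
    · have := (Nat.pow_le_pow_iff_right (by norm_num : 1 < 2)).1 ((h h0).trans hm)
      omega
  unfold TQ
  rcases hn with ⟨n1, n2⟩ | ⟨n1, n2⟩
  · have r1 := key _ _ h1 0 (by rw [n1]; norm_num)
    have r2 := key _ _ h2 1 (by rw [n2]; norm_num)
    omega
  · have r1 := key _ _ h1 1 (by rw [n1]; norm_num)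
    have r2 := key _ _ h2 0 (by rw [n2]; norm_num)
    omega

open Classical in
/-- **The rank over `ℚ(√17)` is at most one for a positive proportion of the curves.** -/
theorem curvesQ : ∃ c : ℝ, 0 < c ∧ ∃ H0 : ℕ, ∀ H : ℕ, H0 ≤ H →
    c * ((Cv 2 H).card : ℝ) ≤ (((Cv 2 H).filter TQ).card : ℝ) := by
  obtain ⟨c, hc, X0, hX0⟩ := mainw
  refine ⟨c / 80000, by positivity, 64 * (17 * max X0 1) ^ 6, fun H hH => ?_⟩
  obtain ⟨X, hXX0, hX2, h3⟩ := size_exists X0 H hH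
  have h1 := hX0 X hXX0
  set G := (Icc 1 X ×ˢ Icc 1 X).filter (GoodW X) with hG
  have hmem : ∀ t ∈ G, t ∈ Icc 1 X ×ˢ Icc 1 X ∧ GoodW X t := by
    intro t ht
    rw [hG, mem_filter] at ht
    exact ht
  have a1 : G.card ≤ ((Cv 2 H).filter TQ).card := by
    refine inj1 hX2 _ hmem TQ fun t ht => ?_
    obtain ⟨f1, f2, f3, f4, f5, f6, f7, f8, f9⟩ := factsW (hmem t ht).1 (hmem t ht).2
    obtain ⟨-, -, -, -, -, -, -, -, -, -, -, g⟩ := (hmem t ht).2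
    exact tq f1 f2 f3 f8 f9 g
  have h3' : ((Cv 2 H).card : ℝ) ≤ 80000 * (X : ℝ) ^ 2 := by exact_mod_cast h3
  have h4' : (G.card : ℝ) ≤ (((Cv 2 H).filter TQ).card : ℝ) := by exact_mod_cast a1
  have h5 : c / 80000 * ((Cv 2 H).card : ℝ) ≤ c / 80000 * (80000 * (X : ℝ) ^ 2) := by gcongr
  have h6 : c * (X : ℝ) ^ 2 ≤ (G.card : ℝ) := h1
  have h7 : c / 80000 * (80000 * (X : ℝ) ^ 2) = c * (X : ℝ) ^ 2 := by ring
  linarith

/-- the multiplicities of the two characters -/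
theorem mult_le {c : ℤ × ℤ} (hD : 4 * c.1 ^ 3 + 27 * c.2 ^ 2 ≠ 0) (hT : HasT 2 (Sh c.1 c.2))
    (h : TQ c) (F : Type) [Field F] [NumberField F] [IsGalois ℚ F] (χ : (F ≃ₐ[ℚ] F) →* ℤˣ)
    (s : F) (hs : s ^ 2 = 17) (hσ : ∀ σ : F ≃ₐ[ℚ] F, σ s = (((χ σ : ℤˣ) : ℤ) : F) * s) :
    Module.finrank ℤ (Pool.Agent.W307.AT.Part F 1 (Sh c.1 c.2)) +
      Module.finrank ℤ (Pool.Agent.W307.AT.Part F χ (Sh c.1 c.2)) ≤ 1 := by
  obtain ⟨F', -, hF'⟩ := Pool.Agent.W513.FK.parf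
  obtain ⟨-, -, -, -, -, e1, e2, e3, hr, -, -⟩ := hF' c hD hT
  obtain ⟨φ, hφ⟩ := Pool.Agent.W605.AT.dsc F χ 17 s (by norm_num) (by rw [hs]; norm_num) hσ c.1 c.2
  obtain ⟨ψ, hψ⟩ := Pool.Agent.W605.AT.dsc F 1 1 1 (by norm_num) (by norm_num)
    (by intro σ; simp) c.1 c.2
  have f1 := Pool.Agent.W307.RG.fin_tw hD hr (d := 17) (by norm_num)
  have f2 := Pool.Agent.W307.RG.fin_tw hD hr (d := 1) (by norm_num)
  have g1 := LinearMap.finrank_le_finrank_of_injective (f := φ.toIntLinearMap) hφ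
  have g2 := LinearMap.finrank_le_finrank_of_injective (f := ψ.toIntLinearMap) hψ
  have e1 : (1 : ℤ) ^ 2 * c.1 = c.1 := by ring
  have e2 : (1 : ℤ) ^ 3 * c.2 = c.2 := by ring
  rw [e1, e2] at g2
  unfold TQ at h
  omega

open Classical in
/-- the rank over `ℚ(√17)` -/
theorem rank_le {c : ℤ × ℤ} (hD : 4 * c.1 ^ 3 + 27 * c.2 ^ 2 ≠ 0) (hT : HasT 2 (Sh c.1 c.2))
    (h : TQ c) (F : Type) [Field F] [NumberField F] (s : F) (hs : s ^ 2 = 17)
    (hgen : IntermediateField.adjoin ℚ {s} = ⊤) :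
    Module.finrank ℤ (ShK (c.1 : F) (c.2 : F)).toAffine.Point ≤ 1 := by
  obtain ⟨F', -, hF'⟩ := Pool.Agent.W513.FK.parf
  obtain ⟨-, -, -, -, -, e1, e2, e3, hr, -, -⟩ := hF' c hD hT
  have f1 := Pool.Agent.W307.RG.fin_tw hD hr (d := 17) (by norm_num)
  have f2 := Pool.Agent.W307.RG.fin_tw hD hr (d := 1) (by norm_num)
  have e1 : (1 : ℤ) ^ 2 * c.1 = c.1 := by ring
  have e2 : (1 : ℤ) ^ 3 * c.2 = c.2 := by ring
  rw [e1, e2] at f2
  have hq := Pool.Agent.W307.RS.mq2 F 1 (fun _ => s) (fun _ => 17) (fun _ => by rw [hs]; norm_num)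
    (fun _ => by norm_num) (by rw [Set.range_const]; exact hgen) c.1 c.2 hD
  have huniv : (Finset.univ : Finset (Finset (Fin 1))) = {∅, {0}} := by decide
  rw [huniv, Finset.sum_pair (by decide), Finset.prod_empty, Finset.prod_singleton, e1, e2,
    ← Module.finrank_eq_rank ℤ (Sh c.1 c.2).toAffine.Point,
    ← Module.finrank_eq_rank ℤ (Sh (17 ^ 2 * c.1) (17 ^ 3 * c.2)).toAffine.Point,
    ← Nat.cast_add] at hq
  exact (Module.finrank_le_of_rank_le hq).trans h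

end Pool.Agent.Y667.QF
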